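import Pool.Agent.Y478.TG.Stm

/-!
# Linear algebra for the job TG-LUC: total Betti numbers, kernels of Laplacians, ranks
-/

open scoped InnerProductSpace Topology

noncomputable section

namespace Pool.Agent.Y407.TG

open Module Matrix Pool.Agent.Y478.TG

/-! ### The rank over an extension field -/

theorem rank_le_map {m : Type} [Fintype m] [DecidableEq m] (M : Matrix m m ℚ) (f : ℚ →+* ℂ) :
    M.rank ≤ (M.map f).rank := by
  obtain ⟨V, U, e, hV, hU, h⟩ := M.exists_rank_normal_form
  have h1 : (V.map f) * (M.map f) * (U.map f) = (Matrix.fromBlocks 1 0 0 0).submatrix e e := by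
    have h2 := congrArg (fun X : Matrix m m ℚ => X.map f) h
    simp only [Matrix.map_mul] at h2
    rw [h2]
    ext i j
    simp only [Matrix.map_apply, Matrix.submatrix_apply]
    rcases e i with a | a <;> rcases e j with b | b
    · simp only [Matrix.fromBlocks_apply₁₁, Matrix.one_apply]
      split_ifs
      · exact map_one f
      · exact map_zero f
    · simp
    · simp
    · simp
  have h2 : M.rank ≤ ((Matrix.fromBlocks 1 0 0 0 :
      Matrix (Fin M.rank ⊕ Fin (Fintype.card m - M.rank))
        (Fin M.rank ⊕ Fin (Fintype.card m - M.rank)) ℂ).submatrix e e).rank := by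
    classical
    rw [Matrix.rank_submatrix, ← Matrix.diagonal_one, ← Matrix.diagonal_zero,
      Matrix.fromBlocks_diagonal, Matrix.rank_diagonal]
    have h3 := Fintype.card_le_of_injective
      (fun i : Fin M.rank => (⟨Sum.inl i, by simp⟩ :
        {i : Fin M.rank ⊕ Fin (Fintype.card m - M.rank) //
          Sum.elim (fun _ => (1 : ℂ)) (fun _ => (0 : ℂ)) i ≠ 0}))
      (fun i j hij => Sum.inl_injective (congrArg Subtype.val hij))
    rwa [Fintype.card_fin] at h3
  calc M.rank ≤ _ := h2
    _ = ((V.map f) * (M.map f) * (U.map f)).rank := by rw [h1]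
    _ ≤ ((V.map f) * (M.map f)).rank := Matrix.rank_mul_le_left _ _
    _ ≤ (M.map f).rank := Matrix.rank_mul_le_right _ _

/-! ### The total Betti number -/

section betti
variable {I F : Type} [Fintype I] [Field F] (deg : I → ℕ) (A : Matrix I I F)

theorem finrank_cycles_le (n : ℕ) :
    finrank F (cycles deg A n) ≤ betti deg A n + finrank F (boundaries deg A n) := by
  have h1 := Submodule.finrank_quotient_add_finrank
    ((boundaries deg A n).submoduleOf (cycles deg A n))
  have h2 : finrank F ((boundaries deg A n).submoduleOf (cycles deg A n)) ≤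
      finrank F (boundaries deg A n) := by
    let g : ((boundaries deg A n).submoduleOf (cycles deg A n)) →ₗ[F] (boundaries deg A n) :=
      { toFun := fun x => ⟨x.1.1, x.2⟩
        map_add' := fun _ _ => rfl
        map_smul' := fun _ _ => rfl }
    refine LinearMap.finrank_le_finrank_of_injective (f := g) fun x y hxy => ?_
    apply Subtype.ext
    apply Subtype.ext
    have h3 : (g x).1 = (g y).1 := by rw [hxy]
    exact h3
  unfold betti
  omega

/-- The component of degree `n`. -/
def comp (n : ℕ) (v : I → F) : I → F := fun i => if deg i = n then v i else 0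

theorem comp_mem_cycles (hA : ∀ a b, A a b ≠ 0 → deg a = deg b + 1) (n : ℕ) {v : I → F}
    (hv : v ᵥ* A = 0) : comp deg n v ∈ cycles deg A n := by
  refine ⟨fun i hi => if_neg hi, ?_⟩
  change Matrix.vecMulLinear A (comp deg n v) = 0
  rw [Matrix.vecMulLinear_apply]
  funext b
  rw [Pi.zero_apply]
  change ∑ a, comp deg n v a * A a b = 0
  by_cases hb : deg b + 1 = n
  · have h1 : ∑ a, v a * A a b = 0 := congrFun hv b
    rw [← h1]
    refine Finset.sum_congr rfl fun a _ => ?_
    by_cases hab : A a b = 0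
    · rw [hab, mul_zero, mul_zero]
    · rw [comp, if_pos ((hA a b hab).trans hb)]
  · refine Finset.sum_eq_zero fun a _ => ?_
    by_cases hab : A a b = 0
    · rw [hab, mul_zero]
    · rw [comp, if_neg, zero_mul]
      rw [hA a b hab]
      exact hb

theorem finrank_ker_le_cycles (hA : ∀ a b, A a b ≠ 0 → deg a = deg b + 1) (M : ℕ)
    (hM : ∀ i, deg i < M) :
    finrank F (LinearMap.ker (Matrix.vecMulLinear A)) ≤
      ∑ n : Fin M, finrank F (cycles deg A n) := by
  rw [← Module.finrank_pi_fintype]
  let Φ : (LinearMap.ker (Matrix.vecMulLinear A)) →ₗ[F] (Π n : Fin M, cycles deg A n) :=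
    { toFun := fun v n => ⟨comp deg n v.1, comp_mem_cycles deg A hA n v.2⟩
      map_add' := fun v w => by
        funext n
        apply Subtype.ext
        funext i
        change (if deg i = n then v.1 i + w.1 i else 0) =
          (if deg i = n then v.1 i else 0) + (if deg i = n then w.1 i else 0)
        split_ifs
        · rfl
        · rw [add_zero]
      map_smul' := fun c v => by
        funext n
        apply Subtype.ext
        funext i
        change (if deg i = n then c * v.1 i else 0) = c * (if deg i = n then v.1 i else 0)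
        split_ifs
        · rfl
        · rw [mul_zero] }
  refine LinearMap.finrank_le_finrank_of_injective (f := Φ) fun v w hvw => ?_
  apply Subtype.ext
  funext i
  have h1 := congrFun (congrArg Subtype.val (congrFun hvw ⟨deg i, hM i⟩)) i
  change (if deg i = deg i then v.1 i else 0) = (if deg i = deg i then w.1 i else 0) at h1
  rwa [if_pos rfl, if_pos rfl] at h1

theorem boundaries_supp (hA : ∀ a b, A a b ≠ 0 → deg a = deg b + 1) {n : ℕ} {v : I → F}
    (hv : v ∈ boundaries deg A n) {i : I} (hi : deg i ≠ n) : v i = 0 := by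
  obtain ⟨w, hw, rfl⟩ := hv
  rw [Matrix.vecMulLinear_apply]
  change ∑ a, w a * A a i = 0
  refine Finset.sum_eq_zero fun a _ => ?_
  by_cases hab : A a i = 0
  · rw [hab, mul_zero]
  · rw [hw a, zero_mul]
    rw [hA a i hab]
    intro h
    exact hi (Nat.succ_injective h)

theorem sum_boundaries_le (hA : ∀ a b, A a b ≠ 0 → deg a = deg b + 1) (M : ℕ) :
    ∑ n : Fin M, finrank F (boundaries deg A n) ≤
      finrank F (LinearMap.range (Matrix.vecMulLinear A)) := by
  classical
  rw [← Module.finrank_pi_fintype]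
  let Φ : (Π n : Fin M, boundaries deg A n) →ₗ[F] LinearMap.range (Matrix.vecMulLinear A) :=
    { toFun := fun v => ⟨∑ n : Fin M, (v n).1, by
        refine Submodule.sum_mem _ fun n _ => ?_
        obtain ⟨w, -, hw⟩ := (v n).2
        exact ⟨w, hw⟩⟩
      map_add' := fun v w => by
        apply Subtype.ext
        change ∑ n : Fin M, ((v n).1 + (w n).1) = ∑ n : Fin M, (v n).1 + ∑ n : Fin M, (w n).1
        rw [Finset.sum_add_distrib]
      map_smul' := fun c v => by
        apply Subtype.ext
        change ∑ n : Fin M, c • (v n).1 = c • ∑ n : Fin M, (v n).1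
        rw [Finset.smul_sum] }
  refine LinearMap.finrank_le_finrank_of_injective (f := Φ) fun v w hvw => ?_
  have h1 : ∑ n : Fin M, (v n).1 = ∑ n : Fin M, (w n).1 := congrArg Subtype.val hvw
  funext n
  apply Subtype.ext
  funext i
  by_cases hi : deg i = n
  · have h2 : ∀ u : Π n : Fin M, boundaries deg A n,
        (∑ n : Fin M, (u n).1) i = (u n).1 i := by
      intro u
      rw [Finset.sum_apply]
      refine Finset.sum_eq_single n (fun k _ hk => ?_) (fun h => absurd (Finset.mem_univ _) h)
      refine boundaries_supp deg A hA (u k).2 ?_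
      rw [hi]
      exact fun h => hk (Fin.ext h.symm)
    rw [← h2 v, ← h2 w, h1]
  · rw [boundaries_supp deg A hA (v n).2 hi, boundaries_supp deg A hA (w n).2 hi]

/-- The total Betti number is at least the number of cells minus twice the rank. -/
theorem card_le_betti (hA : ∀ a b, A a b ≠ 0 → deg a = deg b + 1) (M : ℕ)
    (hM : ∀ i, deg i < M) :
    Fintype.card I ≤ ∑ n : Fin M, betti deg A n + 2 * A.rank := by
  classical
  have h1 := finrank_ker_le_cycles deg A hA M hM
  have h2 := sum_boundaries_le deg A hA M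
  have h3 : ∑ n : Fin M, finrank F (cycles deg A n) ≤
      ∑ n : Fin M, betti deg A n + ∑ n : Fin M, finrank F (boundaries deg A n) := by
    rw [← Finset.sum_add_distrib]
    exact Finset.sum_le_sum fun n _ => finrank_cycles_le deg A n
  have h4 := LinearMap.finrank_range_add_finrank_ker (Matrix.vecMulLinear A)
  rw [Module.finrank_fintype_fun_eq_card] at h4
  have h5 : finrank F (LinearMap.range (Matrix.vecMulLinear A)) = A.rank := by
    rw [range_vecMulLinear, Matrix.rank_eq_finrank_span_row]
  omega

end betti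

/-! ### The kernel of a Laplacian -/

section ker
variable {E : Type} [NormedAddCommGroup E] [InnerProductSpace ℂ E] [CompleteSpace E]

theorem ker_lap (f : E →L[ℂ] E) {v : E}
    (hv : (f ∘L f.adjoint + f.adjoint ∘L f) v = 0) : f v = 0 ∧ f.adjoint v = 0 := by
  have h1 : ⟪f.adjoint v, f.adjoint v⟫_ℂ + ⟪f v, f v⟫_ℂ = 0 := by
    have h2 : ⟪v, (f ∘L f.adjoint + f.adjoint ∘L f) v⟫_ℂ = 0 := by rw [hv, inner_zero_right]
    rw [ContinuousLinearMap.add_apply, inner_add_right, ContinuousLinearMap.comp_apply,
      ContinuousLinearMap.comp_apply, ContinuousLinearMap.adjoint_inner_right,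
      ← ContinuousLinearMap.adjoint_inner_left] at h2
    exact h2
  have h3 := congrArg Complex.re h1
  rw [Complex.add_re, Complex.zero_re] at h3
  have h4 : (⟪f.adjoint v, f.adjoint v⟫_ℂ).re = ‖f.adjoint v‖ ^ 2 :=
    (norm_sq_eq_re_inner (𝕜 := ℂ) (f.adjoint v)).symm
  have h5 : (⟪f v, f v⟫_ℂ).re = ‖f v‖ ^ 2 := (norm_sq_eq_re_inner (𝕜 := ℂ) (f v)).symm
  rw [h4, h5] at h3
  have h6 : ‖f v‖ ^ 2 = 0 := by nlinarith [sq_nonneg ‖f v‖, sq_nonneg ‖f.adjoint v‖]
  have h7 : ‖f.adjoint v‖ ^ 2 = 0 := by nlinarith [sq_nonneg ‖f v‖, sq_nonneg ‖f.adjoint v‖]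
  exact ⟨norm_eq_zero.1 (pow_eq_zero_iff (two_ne_zero) |>.1 h6),
    norm_eq_zero.1 (pow_eq_zero_iff (two_ne_zero) |>.1 h7)⟩

theorem finrank_ker_lap [FiniteDimensional ℂ E] (f : E →L[ℂ] E) (hf : ∀ v, f (f v) = 0) :
    finrank ℂ (LinearMap.ker ((f ∘L f.adjoint + f.adjoint ∘L f : E →L[ℂ] E) : E →ₗ[ℂ] E)) +
      2 * finrank ℂ (LinearMap.range (f : E →ₗ[ℂ] E)) ≤ finrank ℂ E := by
  set K := LinearMap.ker ((f ∘L f.adjoint + f.adjoint ∘L f : E →L[ℂ] E) : E →ₗ[ℂ] E) with hK
  set R := LinearMap.range (f : E →ₗ[ℂ] E) with hR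
  set Z := LinearMap.ker (f : E →ₗ[ℂ] E) with hZ
  have h1 : K ≤ Z := by
    intro v hv
    exact (ker_lap f hv).1
  have h2 : R ≤ Z := by
    rintro v ⟨u, rfl⟩
    exact hf u
  have h3 : K ⊓ R = ⊥ := by
    rw [eq_bot_iff]
    rintro v ⟨hv, u, hu⟩
    have hu' : f u = v := hu
    rw [Submodule.mem_bot]
    have h4 := (ker_lap f hv).2
    have h5 : ⟪v, v⟫_ℂ = 0 := by
      conv_lhs => rw [← hu']
      rw [hu', ← hu', ← ContinuousLinearMap.adjoint_inner_right, hu', h4, inner_zero_right]
    exact inner_self_eq_zero.1 h5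
  have h4 := Submodule.finrank_sup_add_finrank_inf_eq K R
  rw [h3, finrank_bot, add_zero] at h4
  have h5 : finrank ℂ (K ⊔ R : Submodule ℂ E) ≤ finrank ℂ Z :=
    Submodule.finrank_mono (sup_le h1 h2)
  have h6 := LinearMap.finrank_range_add_finrank_ker (f : E →ₗ[ℂ] E)
  rw [← hR, ← hZ] at h6
  omega

end ker

end Pool.Agent.Y407.TG
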