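import Pool.Agent.Y407.TG.La

/-!
# Job TG-LUC: if the normalised Betti numbers of the coverings tend to zero then the Laplacian is
injective
-/

open scoped InnerProductSpace Topology

noncomputable section

namespace Pool.Agent.Y407.TG

open Module Matrix Filter Pool.Agent.Helper993 Pool.Agent.Helper993.FK Pool.Agent.Y478.TG

section finite
variable {Q : Type} [Group Q] [Fintype Q] [DecidableEq Q] {r : ℕ}

/-- `fin_package` with a bound for the number of zero eigenvalues. -/
theorem fin_package' [NeZero r] (SZ : Matrix (Fin r) (Fin r) (MonoidAlgebra ℤ Q))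
    (hS : 0 ≤ rMul (SZ.map toQ)) :
    ∃ (n : ℕ) (lam : Fin n → ℝ), n = r * Fintype.card Q ∧ (∀ k, 0 ≤ lam k) ∧
      (∀ k, lam k ≤ ‖rMul (SZ.map toQ)‖) ∧ 1 ≤ ∏ k with lam k ≠ 0, lam k ∧
      (∀ h : ℝ → ℝ, traceVal unitVec (rMul (SZ.map toQ)) h
        = ∑ k, (1 / (Fintype.card Q : ℝ)) * h (lam k)) ∧
      (Finset.univ.filter fun k => lam k = 0).card ≤
        finrank ℂ (LinearMap.ker ((rMul (SZ.map toQ) : L2Pow Q r →L[ℂ] L2Pow Q r) :
          L2Pow Q r →ₗ[ℂ] L2Pow Q r)) := by
  have hfin : FiniteDimensional ℂ (L2Pow Q r) := (stdB Q r).toBasis.finiteDimensional_of_finite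
  set S := SZ.map toQ with hSdef
  set T := rMul S with hTdef
  have hpos : T.IsPositive := (ContinuousLinearMap.nonneg_iff_isPositive T).mp hS
  have hT : (T : L2Pow Q r →ₗ[ℂ] L2Pow Q r).IsSymmetric := hpos.isSymmetric
  have hnt : Nontrivial (L2Pow Q r) := by
    refine ⟨unitVec 0, 0, ?_⟩
    intro h
    have h1 := norm_unitVec (G := Q) (r := r) 0
    rw [h] at h1
    simp at h1
  let U : Q → L2Pow Q r →L[ℂ] L2Pow Q r := fun q =>
    (((stdB Q r).equiv (stdB Q r) (Equiv.prodCongr (Equiv.refl _)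
      (Equiv.mulLeft q))).toContinuousLinearEquiv : L2Pow Q r →L[ℂ] L2Pow Q r)
  have hUb : ∀ q (p : Fin r × Q), U q (stdB Q r p) = stdB Q r (p.1, q * p.2) := by
    intro q p
    simp [U]
    rfl
  have hUi : ∀ q x y, ⟪U q x, U q y⟫_ℂ = ⟪x, y⟫_ℂ := by
    intro q x y
    exact ((stdB Q r).equiv (stdB Q r) _).inner_map_map x y
  have hUT : ∀ q, Commute T (U q) := by
    intro q
    have : (T ∘L U q) = (U q ∘L T) := by
      apply ContinuousLinearMap.coe_injective
      apply (stdB Q r).toBasis.ext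
      intro p
      simp only [OrthonormalBasis.coe_toBasis, ContinuousLinearMap.coe_coe,
        ContinuousLinearMap.comp_apply]
      rw [hUb, hTdef, rMul_stdB, rMul_stdB, map_sum]
      simp_rw [map_smul, hUb]
      refine (Fintype.sum_equiv (Equiv.prodCongr (Equiv.refl _) (Equiv.mulLeft q)) _ _ ?_).symm
      rintro ⟨j, y⟩
      simp
    exact this
  have htr := traceVal_finite (stdB Q r) T hT unitVec U
    (fun q i => by rw [unitVec_stdB, hUb]; simp) hUi hUT
  have hcard : Module.finrank ℂ (L2Pow Q r) = r * Fintype.card Q := by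
    rw [Module.finrank_eq_card_basis (stdB Q r).toBasis]
    simp
  have hnonneg : ∀ k, 0 ≤ hT.eigenvalues rfl k := by
    intro k
    apply eigenvalue_nonneg_of_nonneg (hT.hasEigenvalue_eigenvalues rfl k)
    intro x
    exact hpos.re_inner_nonneg_right x
  have heig : ∀ k, T (hT.eigenvectorBasis rfl k)
      = ((hT.eigenvalues rfl k : ℝ) : ℂ) • hT.eigenvectorBasis rfl k :=
    fun k => hT.apply_eigenvectorBasis rfl k
  refine ⟨_, hT.eigenvalues rfl, hcard, hnonneg, ?_, ?_, fun h => htr h, ?_⟩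
  · intro k
    have h1 := T.le_opNorm (hT.eigenvectorBasis rfl k)
    rw [heig k, norm_smul, (hT.eigenvectorBasis rfl).orthonormal.1 k, Complex.norm_real,
      Real.norm_eq_abs, mul_one, mul_one] at h1
    exact (le_abs_self _).trans h1
  · let MZ : Matrix (Fin r × Q) (Fin r × Q) ℤ := Matrix.of fun q p =>
      (SZ p.1 q.1).coeff (p.2⁻¹ * q.2)
    apply prod_nonzero_ge_one _ hnonneg MZ.charpoly
    have h1 : LinearMap.toMatrix (stdB Q r).toBasis (stdB Q r).toBasis
        (T : L2Pow Q r →ₗ[ℂ] L2Pow Q r) = MZ.map (Int.castRingHom ℂ) := by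
      ext q p
      rw [LinearMap.toMatrix_apply]
      rw [OrthonormalBasis.coe_toBasis, ContinuousLinearMap.coe_coe, hTdef, rMul_stdB]
      rw [map_sum, Finsupp.finsetSum_apply]
      simp only [map_smul, Finsupp.smul_apply, smul_eq_mul, Matrix.map_apply, MZ, Matrix.of_apply]
      rw [Finset.sum_eq_single q]
      · rw [← OrthonormalBasis.coe_toBasis, Module.Basis.repr_self, Finsupp.single_eq_same, mul_one,
          hSdef, Matrix.map_apply, toQ_coeff]
        simp
      · intro q' _ hq'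
        rw [← OrthonormalBasis.coe_toBasis, Module.Basis.repr_self, Finsupp.single_eq_of_ne hq'.symm,
          mul_zero]
      · simp
    have h2 := LinearMap.charpoly_toMatrix (T : L2Pow Q r →ₗ[ℂ] L2Pow Q r) (stdB Q r).toBasis
    have h3 := hT.charpoly_eq rfl
    rw [← Matrix.charpoly_map, ← h1, h2, h3]
    rfl
  · have hli := (hT.eigenvectorBasis rfl).orthonormal.linearIndependent
    let b : {k // k ∈ Finset.univ.filter fun k => hT.eigenvalues rfl k = 0} →
        LinearMap.ker (T : L2Pow Q r →ₗ[ℂ] L2Pow Q r) := fun k =>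
      ⟨hT.eigenvectorBasis rfl k.1, by
        have hk : hT.eigenvalues rfl k.1 = 0 := (Finset.mem_filter.1 k.2).2
        have h1 := heig k.1
        rw [hk, Complex.ofReal_zero, zero_smul] at h1
        exact h1⟩
    have hb : LinearIndependent ℂ b := by
      apply LinearIndependent.of_comp (LinearMap.ker (T : L2Pow Q r →ₗ[ℂ] L2Pow Q r)).subtype
      exact hli.comp _ Subtype.val_injective
    have h2 := hb.fintype_card_le_finrank
    rwa [Fintype.card_coe] at h2

/-- The rank of the operator is the rank of the matrix. -/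
theorem finrank_range_rMul (A : Matrix (Fin r) (Fin r) (MonoidAlgebra ℤ Q)) :
    finrank ℂ (LinearMap.range ((rMul (A.map toQ) : L2Pow Q r →L[ℂ] L2Pow Q r) :
      L2Pow Q r →ₗ[ℂ] L2Pow Q r)) =
    ((Matrix.of fun p q : Fin r × Q => (A p.1 q.1).coeff (p.2⁻¹ * q.2)).map
      (Int.castRingHom ℂ)).rank := by
  rw [← Matrix.rank_transpose,
    Matrix.rank_eq_finrank_range_toLin _ (stdB Q r).toBasis (stdB Q r).toBasis]
  have h1 : LinearMap.toMatrix (stdB Q r).toBasis (stdB Q r).toBasis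
      ((rMul (A.map toQ) : L2Pow Q r →L[ℂ] L2Pow Q r) : L2Pow Q r →ₗ[ℂ] L2Pow Q r) =
        ((Matrix.of fun p q : Fin r × Q => (A p.1 q.1).coeff (p.2⁻¹ * q.2)).map
          (Int.castRingHom ℂ))ᵀ := by
    ext q p
    rw [LinearMap.toMatrix_apply]
    rw [OrthonormalBasis.coe_toBasis, ContinuousLinearMap.coe_coe, rMul_stdB]
    rw [map_sum, Finsupp.finsetSum_apply]
    simp only [map_smul, Finsupp.smul_apply, smul_eq_mul, Matrix.map_apply, Matrix.of_apply,
      Matrix.transpose_apply]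
    rw [Finset.sum_eq_single q]
    · rw [← OrthonormalBasis.coe_toBasis, Module.Basis.repr_self, Finsupp.single_eq_same, mul_one,
        toQ_coeff]
      simp
    · intro q' _ hq'
      rw [← OrthonormalBasis.coe_toBasis, Module.Basis.repr_self, Finsupp.single_eq_of_ne hq'.symm,
        mul_zero]
    · simp
  rw [← h1, Matrix.toLin_toMatrix]

end finite

section rmul
variable {G : Type} [Group G] {r : ℕ}

theorem rMul_add (A B : Matrix (Fin r) (Fin r) (MonoidAlgebra ℚ G)) :
    rMul (A + B) = rMul A + rMul B := by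
  simp only [rMul_eq_sc, Matrix.add_apply, sc_add, Finset.sum_add_distrib]

theorem rMul_zero : rMul (0 : Matrix (Fin r) (Fin r) (MonoidAlgebra ℚ G)) = 0 := by
  simp only [rMul_eq_sc, Matrix.zero_apply, sc_zero, Finset.sum_const_zero]

/-- The Laplacian as a right multiplication. -/
theorem rMul_lap (A : Matrix (Fin r) (Fin r) (MonoidAlgebra ℚ G)) :
    rMul (adjQ A * A + A * adjQ A) =
      (rMul A) ∘L (rMul A).adjoint + (rMul A).adjoint ∘L (rMul A) := by
  rw [rMul_add, rMul_mul, rMul_mul, adjoint_rMul]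

theorem rMul_lap_nonneg (A : Matrix (Fin r) (Fin r) (MonoidAlgebra ℚ G)) :
    0 ≤ rMul (adjQ A * A + A * adjQ A) := by
  rw [rMul_lap, ContinuousLinearMap.nonneg_iff_isPositive]
  refine ContinuousLinearMap.IsPositive.add ?_ ?_
  · have h := ContinuousLinearMap.isPositive_adjoint_comp_self (rMul A).adjoint
    rwa [ContinuousLinearMap.adjoint_adjoint] at h
  · exact ContinuousLinearMap.isPositive_adjoint_comp_self (rMul A)

theorem mq_lap (N : Subgroup G) [N.Normal] (A : Matrix (Fin r) (Fin r) (MonoidAlgebra ℚ G)) :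
    mq N (adjQ A * A + A * adjQ A) = adjQ (mq N A) * mq N A + mq N A * adjQ (mq N A) := by
  have h1 : ∀ B D : Matrix (Fin r) (Fin r) (MonoidAlgebra ℚ G), mq N (B + D) = mq N B + mq N D := by
    intro B D
    rw [mq_eq, mq_eq, mq_eq]
    exact Matrix.map_add _ (map_add _) _ _
  rw [h1, mq_mul, mq_mul, mq_adjQ]

/-- The integral matrix of the Laplacian. -/
def LZ (A : Matrix (Fin r) (Fin r) (MonoidAlgebra ℤ G)) :
    Matrix (Fin r) (Fin r) (MonoidAlgebra ℤ G) := adjZ A * A + A * adjZ A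

theorem LZ_toQ (A : Matrix (Fin r) (Fin r) (MonoidAlgebra ℤ G)) :
    (LZ A).map toQ = adjQ (A.map toQ) * A.map toQ + A.map toQ * adjQ (A.map toQ) := by
  have h1 : ∀ B D : Matrix (Fin r) (Fin r) (MonoidAlgebra ℤ G),
      (B + D).map toQ = B.map toQ + D.map toQ := by
    intro B D
    exact Matrix.map_add _ (map_add (MonoidAlgebra.mapRingHom G (Int.castRingHom ℚ))) _ _
  rw [LZ, h1, toQ_mul, toQ_mul, toQ_adjZ]

end rmul

section tower
variable {G : Type} [Group G] (C : Cx G)

theorem laplacian_eq : C.laplacian = rMul ((LZ C.d).map toQ) := by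
  rw [LZ_toQ, rMul_lap]
  rfl

theorem LZ_nonneg : 0 ≤ rMul ((LZ C.d).map toQ) := by
  rw [LZ_toQ]
  exact rMul_lap_nonneg _

theorem mq_LZ_nonneg (N : Subgroup G) [N.Normal] : 0 ≤ rMul (mq N ((LZ C.d).map toQ)) := by
  rw [LZ_toQ, mq_lap]
  exact rMul_lap_nonneg _

/-- A bound for the degrees. -/
def bdeg : ℕ := ∑ a, (C.deg a + 1)

theorem lt_bdeg (a : Fin C.cells) : C.deg a < bdeg C := by
  unfold bdeg
  have h := Finset.single_le_sum (f := fun a => C.deg a + 1) (fun _ _ => Nat.zero_le _)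
    (Finset.mem_univ a)
  exact h

theorem finrank_ker_le (N : Subgroup G) [N.Normal] [N.FiniteIndex] :
    finrank ℂ (LinearMap.ker ((rMul (mq N ((LZ C.d).map toQ)) :
      L2Pow (G ⧸ N) C.cells →L[ℂ] L2Pow (G ⧸ N) C.cells) :
        L2Pow (G ⧸ N) C.cells →ₗ[ℂ] L2Pow (G ⧸ N) C.cells)) ≤
      ∑ n : Fin (bdeg C), C.betti N ℚ n := by
  classical
  letI : Fintype (G ⧸ N) := Fintype.ofFinite (G ⧸ N)
  have hfin : FiniteDimensional ℂ (L2Pow (G ⧸ N) C.cells) :=
    (stdB (G ⧸ N) C.cells).toBasis.finiteDimensional_of_finite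
  set B : Matrix (Fin C.cells) (Fin C.cells) (MonoidAlgebra ℤ (G ⧸ N)) :=
    C.d.map (MonoidAlgebra.mapDomain (QuotientGroup.mk' N)) with hB
  have h1 : mq N (C.d.map toQ) = B.map toQ := mq_toQ N C.d
  have h2 : B * B = 0 := by
    have h3 : B = C.d.map (MonoidAlgebra.mapDomainRingHom ℤ (QuotientGroup.mk' N)) := rfl
    rw [h3, ← Matrix.map_mul, C.d_mul_d]
    exact Matrix.map_zero _ (map_zero _)
  have h4 : ∀ v, rMul (B.map toQ) (rMul (B.map toQ) v) = 0 := by
    intro v
    rw [← ContinuousLinearMap.comp_apply, ← rMul_mul, ← toQ_mul, h2]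
    have h5 : (0 : Matrix (Fin C.cells) (Fin C.cells) (MonoidAlgebra ℤ (G ⧸ N))).map toQ = 0 :=
      Matrix.map_zero _ (map_zero (MonoidAlgebra.mapRingHom (G ⧸ N) (Int.castRingHom ℚ)))
    rw [h5, rMul_zero]
    rfl
  have h5 := finrank_ker_lap (rMul (B.map toQ)) h4
  rw [LZ_toQ, mq_lap, h1, rMul_lap]
  have h6 : finrank ℂ (L2Pow (G ⧸ N) C.cells) = Fintype.card (Fin C.cells × (G ⧸ N)) :=
    Module.finrank_eq_card_basis (stdB (G ⧸ N) C.cells).toBasis
  have h7 : (Matrix.of fun p q : Fin C.cells × (G ⧸ N) => (B p.1 q.1).coeff (p.2⁻¹ * q.2)) =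
    C.bd N := rfl
  rw [finrank_range_rMul, h7, h6] at h5
  have h8 := rank_le_map ((C.bd N).map (Int.castRingHom ℚ)) (algebraMap ℚ ℂ)
  have h9 : ((C.bd N).map (Int.castRingHom ℚ)).map (algebraMap ℚ ℂ) =
      (C.bd N).map (Int.castRingHom ℂ) := by
    ext p q
    simp
  rw [h9] at h8
  have h10 := card_le_betti (fun p : Fin C.cells × (G ⧸ N) => C.deg p.1)
    ((C.bd N).map (Int.castRingHom ℚ)) (by
      intro p q hpq
      apply C.deg_eq
      intro h0
      apply hpq
      rw [Matrix.map_apply, Cx.bd, Matrix.of_apply, h0]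
      simp) (bdeg C) (fun p => lt_bdeg C p.1)
  have h11 : ∀ n, C.betti N ℚ n =
      Pool.Agent.Y478.TG.betti (fun p : Fin C.cells × (G ⧸ N) => C.deg p.1)
        ((C.bd N).map (Int.castRingHom ℚ)) n := fun n => rfl
  simp only [h11]
  omega

end tower

section limit
variable (X : Tower)

/-- The bound for the trace. -/
theorem traceVal_le [NeZero X.C.cells]
    (hb : ∀ n, Tendsto (fun i => (X.betti ℚ i n : ℝ) / ((X.N i).index : ℝ)) atTop (𝓝 0))
    {δ : ℝ} (hδ : 0 < δ) (hδ1 : δ < 1) :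
    traceVal unitVec (rMul ((LZ X.C.d).map toQ)) (bump δ) ≤
      X.C.cells * Real.log (KK (LZ X.C.d)) / Real.log (1 / δ) := by
  haveI : ∀ i, Finite (X.G ⧸ X.N i) := fun i => inferInstance
  have t1 := tendsto_traceVal X.N X.anti X.inf ((LZ X.C.d).map toQ) (LZ_nonneg X.C)
    (fun i => mq_LZ_nonneg X.C (X.N i)) (bump_continuous δ)
  have hlog : 0 < Real.log (1 / δ) := by
    apply Real.log_pos
    rw [lt_div_iff₀ hδ]
    linarith
  have t2 : Tendsto (fun i => (∑ n : Fin (bdeg X.C), (X.betti ℚ i n : ℝ) / ((X.N i).index : ℝ)) +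
      X.C.cells * Real.log (KK (LZ X.C.d)) / Real.log (1 / δ)) atTop
      (𝓝 (0 + X.C.cells * Real.log (KK (LZ X.C.d)) / Real.log (1 / δ))) := by
    apply Tendsto.add_const
    have := tendsto_finsetSum (Finset.univ : Finset (Fin (bdeg X.C))) (fun n _ => hb n)
    rwa [Finset.sum_const_zero] at this
  rw [zero_add] at t2
  refine le_of_tendsto_of_tendsto' t1 t2 fun i => ?_
  classical
  letI : Fintype (X.G ⧸ X.N i) := Fintype.ofFinite _
  have h := mq_LZ_nonneg X.C (X.N i)
  have hk := finrank_ker_le X.C (X.N i)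
  rw [mq_toQ] at h hk ⊢
  obtain ⟨n, lam, hn, h1, h2, h3, h4, h5⟩ := fin_package' _ h
  subst hn
  rw [h4]
  have hq : Fintype.card (X.G ⧸ X.N i) = (X.N i).index := by
    rw [Subgroup.index, Nat.card_eq_fintype_card]
  have hq0 : (0 : ℝ) < Fintype.card (X.G ⧸ X.N i) := by exact_mod_cast Fintype.card_pos
  have k1 := sum_bump_le lam hδ
  have h2' : ∀ k, lam k ≤ KK (LZ X.C.d) := by
    intro k
    refine (h2 k).trans ?_
    rw [← mq_toQ]
    exact (norm_rMul_map_le _ _).trans (le_max_right _ _)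
  have k2 := count_bound lam h1 (one_le_KK (LZ X.C.d)) h2' h3 (δ := δ)
  have k3 : ((Finset.univ.filter fun k => lam k ≠ 0 ∧ lam k < δ).card : ℝ)
      ≤ ((X.C.cells * Fintype.card (X.G ⧸ X.N i) : ℕ) : ℝ) * Real.log (KK (LZ X.C.d)) /
        Real.log (1 / δ) := by
    rw [le_div_iff₀ hlog]
    exact k2
  have k4 : ((Finset.univ.filter fun k => lam k = 0).card : ℝ) ≤
      ∑ n : Fin (bdeg X.C), (X.betti ℚ i n : ℝ) := by
    exact_mod_cast h5.trans hk
  refine (tau_i_le lam _ (bump δ) (k1.trans (add_le_add k4 k3))).trans (le_of_eq ?_)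
  rw [add_div, Finset.sum_div, ← hq]
  congr 1
  push_cast
  field_simp

theorem inj_of_tendsto [NeZero X.C.cells]
    (hb : ∀ n, Tendsto (fun i => (X.betti ℚ i n : ℝ) / ((X.N i).index : ℝ)) atTop (𝓝 0)) :
    ∀ v, rMul ((LZ X.C.d).map toQ) v = 0 → v = 0 := by
  intro w hw
  apply coord_ext
  intro j g
  rw [coord_zero]
  obtain ⟨w', hw'⟩ := exists_translate w g
  have h1 : rMul ((LZ X.C.d).map toQ) w' = 0 := by
    apply coord_ext
    intro k h
    rw [coord_zero, rMul_apply]
    have := congrArg (fun x => coord x k (g * h)) hw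
    simp only [coord_zero, rMul_apply] at this
    rw [← this]
    simp only [hw', mul_assoc]
  have h2 : ⟪(unitVec j : L2Pow X.G X.C.cells), w'⟫_ℂ = coord w j g := by
    rw [inner_unitVec, hw', mul_one]
  have key : ∀ δ : ℝ, 0 < δ → δ < 1 → ‖coord w j g‖ ^ 2
      ≤ X.C.cells * Real.log (KK (LZ X.C.d)) / Real.log (1 / δ) * ‖w'‖ ^ 2 := by
    intro δ hδ hδ1
    rw [← h2]
    refine (inner_ker_le unitVec (rMul ((LZ X.C.d).map toQ)) (LZ_nonneg X.C) δ w' h1 j).trans ?_
    exact mul_le_mul_of_nonneg_right (traceVal_le X hb hδ hδ1) (by positivity)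
  have h3 : ‖coord w j g‖ ^ 2 ≤ 0 := by
    have hlim : Filter.Tendsto (fun n : ℕ => X.C.cells * Real.log (KK (LZ X.C.d)) /
        ((n : ℝ) + 1) * ‖w'‖ ^ 2) Filter.atTop (𝓝 (0 * ‖w'‖ ^ 2)) := by
      apply Filter.Tendsto.mul_const
      apply Filter.Tendsto.div_atTop tendsto_const_nhds
      exact Filter.tendsto_atTop_add_const_right _ _ tendsto_natCast_atTop_atTop
    rw [zero_mul] at hlim
    refine ge_of_tendsto' hlim (fun n => ?_)
    have := key (Real.exp (-((n : ℝ) + 1))) (Real.exp_pos _)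
      (by rw [Real.exp_lt_one_iff]; have : (0:ℝ) ≤ n := Nat.cast_nonneg n; linarith)
    rwa [one_div, ← Real.exp_neg, neg_neg, Real.log_exp] at this
  have h4 : ‖coord w j g‖ = 0 := by
    have := norm_nonneg (coord w j g)
    nlinarith [sq_nonneg ‖coord w j g‖]
  exact norm_eq_zero.mp h4

end limit

/-- **TG-LUC.** -/
theorem t : Pool.Agent.Y478.TG.LucStmt := by
  intro X hb v hv
  rw [laplacian_eq] at hv
  by_cases h0 : X.C.cells = 0
  · apply coord_ext
    intro j
    rw [h0] at j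
    exact j.elim0
  · haveI : NeZero X.C.cells := ⟨h0⟩
    exact inj_of_tendsto X hb v hv

end Pool.Agent.Y407.TG
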